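import Pool.Agent.Lib.MP_5daced_lc.Proof

namespace Pool.Agent.Results.MP_5daced_lc.Positivity

open Pool.Agent.Lib.MP_5daced_lc

universe u v

theorem result {V : Type u} {W : Type v} [Finite W] (F : Frame W) (ps : List V) (φ : Fm V) :
    (∃ ψ : Fm V, Positive ps ψ ∧ ∀ θ : V → Set W, eval F θ φ = eval F θ ψ) ↔
      ∀ (θ₁ θ₂ : V → Set W) (Z : SetRel W W), IsDirected F ps θ₁ θ₂ Z →
        Z.image (eval F θ₁ φ) ⊆ eval F θ₂ φ :=
  main F ps φ

end Pool.Agent.Results.MP_5daced_lc.Positivity
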