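import Pool.Agent.Lib.MP_5daced_lc.Depth

namespace Pool.Agent.Results.MP_5daced_lc.QuadraticDepth

open Pool.Agent.Lib.MP_5daced_lc

universe u

theorem result {V : Type u} (n : ℕ) (hn : 3 ≤ n) :
    (∀ (F : Frame (Fin n)) (ps : List V) (φ : Fm V), Preserved F ps φ →
      ∃ ψ : Fm V, Positive ps ψ ∧ depth ψ ≤ n ^ 2 ∧ ∀ θ, eval F θ φ = eval F θ ψ) ∧
    ∀ p : V, ∃ (R : Fin n → Fin n → Prop) (φ : Fm V), Preserved (kripke R) [p] φ ∧
      ∀ ψ : Fm V, Positive [p] ψ → (∀ θ, eval (kripke R) θ φ = eval (kripke R) θ ψ) →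
        (n - 1) ^ 2 < depth ψ := by
  refine ⟨fun F ps φ h => by simpa using upper F ps φ h, fun p => ?_⟩
  obtain ⟨m, rfl⟩ : ∃ m, n = m + 1 := ⟨n - 1, by omega⟩
  exact ⟨_, lower (by omega) p⟩

end Pool.Agent.Results.MP_5daced_lc.QuadraticDepth
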